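import Pool.Agent.Q120.MF.Model

/-!
# Cramér's model: the number of elements of a window
-/

set_option autoImplicit false

namespace Pool.Agent.Q120.AD

open Finset MeasureTheory Filter Pool.Agent.Q120.ET Pool.Agent.Q120.MF

theorem cramerOn_nonneg {B T : Finset ℕ} (hB : ∀ n ∈ B, 3 ≤ n) (hT : T ⊆ B) : 0 ≤ cramerOn B T :=
  (cramerOn_pos hB hT).le

theorem gen_fun (B : Finset ℕ) (s : ℝ) :
    ∑ T ∈ B.powerset, cramerOn B T * s ^ T.card = ∏ n ∈ B, (1 - (1 - s) / Real.log (n : ℝ)) := by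
  unfold cramerOn
  have h : ∀ T ∈ B.powerset, (∏ n ∈ T, 1 / Real.log (n : ℝ)) * (∏ n ∈ B \ T, (1 - 1 / Real.log (n : ℝ))) *
      s ^ T.card = (∏ n ∈ T, s * (1 / Real.log (n : ℝ))) * ∏ n ∈ B \ T, (1 - 1 / Real.log (n : ℝ)) := by
    intro T _
    rw [prod_mul_distrib, prod_const]
    ring
  rw [sum_congr rfl h, ← prod_add]
  refine prod_congr rfl (fun n _ => by ring)

theorem prod_le (W : Finset ℕ) (hW : ∀ n ∈ W, 3 ≤ n) {s : ℝ} (hs : 0 ≤ s) :
    ∏ n ∈ W, (1 - (1 - s) / Real.log (n : ℝ)) ≤ Real.exp (-((1 - s) * ∑ n ∈ W, 1 / Real.log (n : ℝ))) := by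
  rw [mul_sum, ← sum_neg_distrib, Real.exp_sum]
  apply Finset.prod_le_prod
  · intro n hn
    have h1 := one_lt_log (hW n hn)
    have h2 : (1 - s) / Real.log (n : ℝ) ≤ 1 := by
      rw [div_le_one (by linarith)]
      linarith
    linarith
  · intro n _
    have := Real.one_sub_le_exp_neg ((1 - s) * (1 / Real.log (n : ℝ)))
    rw [mul_one_div] at this ⊢
    exact this

theorem lower_tail {W : Finset ℕ} (hW : ∀ n ∈ W, 3 ≤ n) {s : ℝ} (hs0 : 0 < s) (hs1 : s ≤ 1) (m : ℕ) :
    ∑ T ∈ W.powerset with T.card ≤ m, cramerOn W T ≤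
      (1 / s) ^ m * Real.exp (-((1 - s) * ∑ n ∈ W, 1 / Real.log (n : ℝ))) := by
  have h1 : ∑ T ∈ W.powerset with T.card ≤ m, cramerOn W T ≤
      (1 / s) ^ m * ∑ T ∈ W.powerset, cramerOn W T * s ^ T.card := by
    rw [mul_sum]
    refine (sum_le_sum (g := fun T => (1 / s) ^ m * (cramerOn W T * s ^ T.card)) ?_).trans
      (sum_le_sum_of_subset_of_nonneg (filter_subset _ _) ?_)
    · intro T hT
      rw [mem_filter, mem_powerset] at hT
      have h2 := cramerOn_nonneg hW hT.1
      have h3 : s ^ m ≤ s ^ T.card := pow_le_pow_of_le_one hs0.le hs1 hT.2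
      have h4 : 1 ≤ (1 / s) ^ m * s ^ T.card := by
        rw [one_div, inv_pow, ← div_eq_inv_mul, le_div_iff₀ (by positivity), one_mul]
        exact h3
      calc cramerOn W T = cramerOn W T * 1 := (mul_one _).symm
        _ ≤ cramerOn W T * ((1 / s) ^ m * s ^ T.card) := mul_le_mul_of_nonneg_left h4 h2
        _ = _ := by ring
    · intro T hT _
      rw [mem_powerset] at hT
      have h2 := cramerOn_nonneg hW hT
      positivity
  refine h1.trans ?_
  rw [gen_fun]
  exact mul_le_mul_of_nonneg_left (prod_le W hW hs0.le) (by positivity)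

theorem upper_tail {W : Finset ℕ} (hW : ∀ n ∈ W, 3 ≤ n) {s : ℝ} (hs1 : 1 ≤ s) (m : ℕ) :
    ∑ T ∈ W.powerset with ¬ T.card ≤ m, cramerOn W T ≤
      (1 / s) ^ m * Real.exp (-((1 - s) * ∑ n ∈ W, 1 / Real.log (n : ℝ))) := by
  have hs0 : 0 < s := by linarith
  have h1 : ∑ T ∈ W.powerset with ¬ T.card ≤ m, cramerOn W T ≤
      (1 / s) ^ m * ∑ T ∈ W.powerset, cramerOn W T * s ^ T.card := by
    rw [mul_sum]
    refine (sum_le_sum (g := fun T => (1 / s) ^ m * (cramerOn W T * s ^ T.card)) ?_).trans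
      (sum_le_sum_of_subset_of_nonneg (filter_subset _ _) ?_)
    · intro T hT
      rw [mem_filter, mem_powerset] at hT
      have h2 := cramerOn_nonneg hW hT.1
      have h3 : s ^ m ≤ s ^ T.card := pow_le_pow_right₀ hs1 (by omega)
      have h4 : 1 ≤ (1 / s) ^ m * s ^ T.card := by
        rw [one_div, inv_pow, ← div_eq_inv_mul, le_div_iff₀ (by positivity), one_mul]
        exact h3
      calc cramerOn W T = cramerOn W T * 1 := (mul_one _).symm
        _ ≤ cramerOn W T * ((1 / s) ^ m * s ^ T.card) := mul_le_mul_of_nonneg_left h4 h2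
        _ = _ := by ring
    · intro T hT _
      rw [mem_powerset] at hT
      have h2 := cramerOn_nonneg hW hT
      positivity
  refine h1.trans ?_
  rw [gen_fun]
  exact mul_le_mul_of_nonneg_left (prod_le W hW hs0.le) (by positivity)

theorem cramerOn_union {W V T S : Finset ℕ} (h : Disjoint W V) (hT : T ⊆ W) (hS : S ⊆ V) :
    cramerOn (W ∪ V) (T ∪ S) = cramerOn W T * cramerOn V S := by
  unfold cramerOn
  have h1 : Disjoint T S := disjoint_of_subset_left hT (disjoint_of_subset_right hS h)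
  have h2 : (W ∪ V) \ (T ∪ S) = (W \ T) ∪ (V \ S) := by
    ext n
    simp only [Finset.mem_sdiff, mem_union, not_or]
    constructor
    · rintro ⟨h3 | h3, h4, h5⟩
      · exact Or.inl ⟨h3, h4⟩
      · exact Or.inr ⟨h3, h5⟩
    · rintro (⟨h3, h4⟩ | ⟨h3, h4⟩)
      · exact ⟨Or.inl h3, h4, fun h5 => Finset.disjoint_left.1 h h3 (hS h5)⟩
      · exact ⟨Or.inr h3, fun h5 => Finset.disjoint_left.1 h (hT h5) h3, h4⟩
  have h3 : Disjoint (W \ T) (V \ S) :=
    disjoint_of_subset_left sdiff_subset (disjoint_of_subset_right sdiff_subset h)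
  rw [h2, prod_union h1, prod_union h3]
  ring

theorem sum_union_pair {W V : Finset ℕ} (h : Disjoint W V) (F G : Finset ℕ → Prop)
    [DecidablePred F] [DecidablePred G] :
    ∑ T ∈ (W ∪ V).powerset with (F (T ∩ W) ∧ G (T ∩ V)), cramerOn (W ∪ V) T =
      (∑ T ∈ W.powerset with F T, cramerOn W T) * ∑ T ∈ V.powerset with G T, cramerOn V T := by
  classical
  rw [sum_mul_sum, ← sum_product']
  have hrec : ∀ T ∈ (W ∪ V).powerset, T ∩ W ∪ T ∩ V = T := by
    intro T hT
    rw [mem_powerset] at hT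
    rw [← inter_union_distrib_left]
    exact inter_eq_left.2 hT
  have hW : ∀ T ∈ W.powerset, ∀ S ∈ V.powerset, (T ∪ S) ∩ W = T := by
    intro T hT S hS
    rw [mem_powerset] at hT hS
    ext n
    simp only [mem_inter, mem_union]
    constructor
    · rintro ⟨h1 | h1, h2⟩
      · exact h1
      · exact absurd (hS h1) (Finset.disjoint_left.1 h h2)
    · intro h1
      exact ⟨Or.inl h1, hT h1⟩
  have hV : ∀ T ∈ W.powerset, ∀ S ∈ V.powerset, (T ∪ S) ∩ V = S := by
    intro T hT S hS
    rw [mem_powerset] at hT hS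
    ext n
    simp only [mem_inter, mem_union]
    constructor
    · rintro ⟨h1 | h1, h2⟩
      · exact absurd h2 (Finset.disjoint_left.1 h (hT h1))
      · exact h1
    · intro h1
      exact ⟨Or.inr h1, hS h1⟩
  refine sum_bij' (fun T _ => (T ∩ W, T ∩ V)) (fun p _ => p.1 ∪ p.2) ?_ ?_ ?_ ?_ ?_
  · intro T hT
    rw [mem_filter] at hT
    rw [mem_product, mem_filter, mem_filter, mem_powerset, mem_powerset]
    exact ⟨⟨inter_subset_right, hT.2.1⟩, ⟨inter_subset_right, hT.2.2⟩⟩
  · rintro ⟨T, S⟩ hp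
    rw [mem_product, mem_filter, mem_filter] at hp
    obtain ⟨⟨h1, h2⟩, h3, h4⟩ := hp
    rw [mem_filter, hW T h1 S h3, hV T h1 S h3]
    refine ⟨?_, h2, h4⟩
    rw [mem_powerset] at h1 h3 ⊢
    exact union_subset_union h1 h3
  · intro T hT
    exact hrec T (mem_filter.1 hT).1
  · rintro ⟨T, S⟩ hp
    rw [mem_product, mem_filter, mem_filter] at hp
    obtain ⟨⟨h1, h2⟩, h3, h4⟩ := hp
    simp only at h1 h3
    show ((T ∪ S) ∩ W, (T ∪ S) ∩ V) = (T, S)
    rw [hW T h1 S h3, hV T h1 S h3]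
  · intro T hT
    show cramerOn (W ∪ V) T = cramerOn W (T ∩ W) * cramerOn V (T ∩ V)
    rw [← cramerOn_union h inter_subset_right inter_subset_right, hrec T (mem_filter.1 hT).1]

theorem sum_all {ι : Type*} [DecidableEq ι] (W : ι → Finset ℕ) (F : ι → Finset ℕ → Prop)
    [∀ i, DecidablePred (F i)] : ∀ I : Finset ι, (∀ i ∈ I, ∀ j ∈ I, i ≠ j → Disjoint (W i) (W j)) →
    ∑ T ∈ (I.biUnion W).powerset with (∀ i ∈ I, F i (T ∩ W i)), cramerOn (I.biUnion W) T =
      ∏ i ∈ I, ∑ T ∈ (W i).powerset with F i T, cramerOn (W i) T := by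
  classical
  intro I
  induction I using Finset.induction_on with
  | empty =>
    intro _
    simp [cramerOn]
  | insert a I ha ih =>
    intro hd
    have hdis : Disjoint (W a) (I.biUnion W) := by
      rw [Finset.disjoint_biUnion_right]
      intro i hi
      refine hd a (mem_insert_self _ _) i (mem_insert_of_mem hi) ?_
      rintro rfl
      exact ha hi
    rw [prod_insert ha, ← ih (fun i hi j hj hij => hd i (mem_insert_of_mem hi) j (mem_insert_of_mem hj) hij),
      ← sum_union_pair hdis, biUnion_insert]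
    refine sum_congr ?_ (fun _ _ => rfl)
    refine filter_congr (fun T _ => ?_)
    rw [forall_mem_insert]
    refine and_congr Iff.rfl (forall₂_congr (fun i hi => ?_))
    rw [inter_assoc, inter_eq_right.2 (subset_biUnion_of_mem W hi)]

variable {Ω : Type*} [MeasurableSpace Ω] {μ : Measure Ω} [IsProbabilityMeasure μ] {A : Ω → Set ℕ}

theorem real_pred (hA : IsCramer μ A) {W : Finset ℕ} (hW : ∀ n ∈ W, 3 ≤ n) (F : Finset ℕ → Prop)
    [DecidablePred F] : μ.real {ω | F (tr A W ω)} = ∑ T ∈ W.powerset with F T, cramerOn W T := by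
  rw [real_event hA.random W F]
  refine sum_congr rfl (fun T hT => ?_)
  exact hA.law W T hW (mem_powerset.1 (mem_filter.1 hT).1)

theorem tr_inter {B W : Finset ℕ} (hWB : W ⊆ B) (ω : Ω) : tr A B ω ∩ W = tr A W ω := by
  ext n
  rw [mem_inter, mem_tr, mem_tr]
  constructor
  · rintro ⟨⟨_, h1⟩, h2⟩
    exact ⟨h2, h1⟩
  · rintro ⟨h1, h2⟩
    exact ⟨⟨hWB h1, h2⟩, h1⟩

/-- Independence of events which depend on disjoint windows. -/
theorem real_all {ι : Type*} [DecidableEq ι] (hA : IsCramer μ A) (I : Finset ι) (W : ι → Finset ℕ)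
    (hW3 : ∀ i ∈ I, ∀ n ∈ W i, 3 ≤ n) (hd : ∀ i ∈ I, ∀ j ∈ I, i ≠ j → Disjoint (W i) (W j))
    (F : ι → Finset ℕ → Prop) [∀ i, DecidablePred (F i)] :
    μ.real {ω | ∀ i ∈ I, F i (tr A (W i) ω)} = ∏ i ∈ I, ∑ T ∈ (W i).powerset with F i T, cramerOn (W i) T := by
  rw [← sum_all W F I hd]
  have h1 : {ω | ∀ i ∈ I, F i (tr A (W i) ω)} = {ω | ∀ i ∈ I, F i (tr A (I.biUnion W) ω ∩ W i)} := by
    ext ω
    refine forall₂_congr (fun i hi => ?_)
    rw [tr_inter (subset_biUnion_of_mem W hi)]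
  rw [h1]
  refine real_pred hA (fun n hn => ?_) (fun T => ∀ i ∈ I, F i (T ∩ W i))
  rw [mem_biUnion] at hn
  obtain ⟨i, hi, hn⟩ := hn
  exact hW3 i hi n hn

/-- A lower bound for the probability of few elements. -/
theorem point_bound {W : Finset ℕ} {y z : ℝ} (hy : 1 < Real.log y) (hy0 : 0 < y)
    (hW : ∀ n ∈ W, y ≤ (n : ℝ) ∧ (n : ℝ) ≤ z) (m : ℕ) :
    (W.card.choose m : ℝ) * ((1 / Real.log z) ^ m * (1 - 1 / Real.log y) ^ W.card) ≤
      ∑ T ∈ W.powerset with T.card ≤ m, cramerOn W T := by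
  have hlog : ∀ n ∈ W, Real.log y ≤ Real.log (n : ℝ) ∧ Real.log (n : ℝ) ≤ Real.log z := by
    intro n hn
    have h1 := hW n hn
    exact ⟨Real.log_le_log hy0 h1.1, Real.log_le_log (by linarith) h1.2⟩
  have h1y : 1 / Real.log y < 1 := by
    rw [div_lt_one (by linarith)]; exact hy
  have hterm : ∀ T ⊆ W, 0 ≤ cramerOn W T := by
    intro T hT
    unfold cramerOn
    apply mul_nonneg
    · apply prod_nonneg
      intro n hn
      have := hlog n (hT hn)
      have : 0 < Real.log (n : ℝ) := by linarith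
      positivity
    · apply prod_nonneg
      intro n hn
      have h2 := hlog n (Finset.mem_sdiff.1 hn).1
      have h3 : 1 / Real.log (n : ℝ) ≤ 1 / Real.log y := one_div_le_one_div_of_le (by linarith) h2.1
      linarith
  have h1 : ∀ T ∈ W.powersetCard m, (1 / Real.log z) ^ m * (1 - 1 / Real.log y) ^ W.card ≤ cramerOn W T := by
    intro T hT
    rw [mem_powersetCard] at hT
    unfold cramerOn
    apply mul_le_mul
    · rw [← hT.2, ← prod_const]
      apply Finset.prod_le_prod
      · intro n hn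
        have := hlog n (hT.1 hn)
        have : 0 < Real.log z := by linarith
        positivity
      · intro n hn
        have := hlog n (hT.1 hn)
        exact one_div_le_one_div_of_le (by linarith) this.2
    · calc (1 - 1 / Real.log y) ^ W.card ≤ (1 - 1 / Real.log y) ^ (W \ T).card := by
            apply pow_le_pow_of_le_one (by linarith)
            · have : 0 < 1 / Real.log y := by
                have : 0 < Real.log y := by linarith
                positivity
              linarith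
            · exact card_le_card sdiff_subset
        _ ≤ _ := by
            rw [← prod_const]
            apply Finset.prod_le_prod
            · intro n _
              linarith
            · intro n hn
              have h2 := hlog n (Finset.mem_sdiff.1 hn).1
              have h3 : 1 / Real.log (n : ℝ) ≤ 1 / Real.log y :=
                one_div_le_one_div_of_le (by linarith) h2.1
              linarith
    · apply pow_nonneg
      linarith
    · apply prod_nonneg
      intro n hn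
      have := hlog n (hT.1 hn)
      have : 0 < Real.log (n : ℝ) := by linarith
      positivity
  have h2 := card_nsmul_le_sum _ _ _ h1
  rw [card_powersetCard, nsmul_eq_mul] at h2
  refine h2.trans (sum_le_sum_of_subset_of_nonneg ?_ ?_)
  · intro T hT
    rw [mem_powersetCard] at hT
    rw [mem_filter, mem_powerset]
    exact ⟨hT.1, hT.2.le⟩
  · intro T hT _
    rw [mem_filter, mem_powerset] at hT
    exact hterm T hT.1

theorem fact_le (m : ℕ) : (m.factorial : ℝ) ≤ ((m : ℝ) + 1) ^ (m + 1) * Real.exp (-(m : ℝ)) := by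
  induction m with
  | zero => simp
  | succ m ih =>
    rw [Nat.factorial_succ]
    push_cast
    have h1 : Real.exp 1 ≤ (((m : ℝ) + 2) / (m + 1)) ^ (m + 2) := by
      have h2 : 1 / ((m : ℝ) + 2) ≤ Real.log (((m : ℝ) + 2) / (m + 1)) := by
        have h3 := Real.one_sub_inv_le_log_of_pos (show 0 < ((m : ℝ) + 2) / (m + 1) by positivity)
        refine le_trans (le_of_eq ?_) h3
        field_simp
        ring
      rw [← Real.le_log_iff_exp_le (by positivity), Real.log_pow]
      push_cast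
      rw [div_le_iff₀ (by positivity)] at h2
      linarith
    have h4 : (((m : ℝ) + 2) / (m + 1)) ^ (m + 2) * ((m : ℝ) + 1) ^ (m + 2) = ((m : ℝ) + 2) ^ (m + 2) := by
      rw [← mul_pow, div_mul_cancel₀ _ (by positivity)]
    have h5 : Real.exp (-((m : ℝ) + 1)) = Real.exp (-(m : ℝ)) / Real.exp 1 := by
      rw [← Real.exp_sub]
      congr 1
      ring
    have h6 : Real.exp (-(m : ℝ)) = Real.exp (-((m : ℝ) + 1)) * Real.exp 1 := by
      rw [h5]
      field_simp
    calc ((m : ℝ) + 1) * (m.factorial : ℝ) ≤ ((m : ℝ) + 1) * (((m : ℝ) + 1) ^ (m + 1) * Real.exp (-(m : ℝ))) :=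
          mul_le_mul_of_nonneg_left ih (by positivity)
      _ = ((m : ℝ) + 1) ^ (m + 2) * Real.exp (-((m : ℝ) + 1)) * Real.exp 1 := by rw [h6]; ring
      _ ≤ ((m : ℝ) + 1) ^ (m + 2) * Real.exp (-((m : ℝ) + 1)) * (((m : ℝ) + 2) / (m + 1)) ^ (m + 2) :=
          mul_le_mul_of_nonneg_left h1 (by positivity)
      _ = ((m : ℝ) + 1 + 1) ^ (m + 1 + 1) * Real.exp (-((m : ℝ) + 1)) := by
          rw [show ((m : ℝ) + 1 + 1) = (m : ℝ) + 2 by ring, show m + 1 + 1 = m + 2 by ring, ← h4]
          ring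

/-- Lower bound for the binomial coefficient with the weight. -/
theorem choose_bound {h m : ℕ} {p : ℝ} (hp : 0 ≤ p) (hm : m ≤ h) :
    1 / ((m : ℝ) + 1) * ((((h : ℝ) - m) * p * Real.exp 1) / ((m : ℝ) + 1)) ^ m ≤ (h.choose m : ℝ) * p ^ m := by
  have h1 : (((h + 1 - m : ℕ) : ℝ) ^ m) / (m.factorial : ℝ) ≤ (h.choose m : ℝ) := by
    have := Nat.pow_le_choose (α := ℝ) m h
    exact_mod_cast this
  have h2 : ((h : ℝ) - m) ^ m ≤ (((h + 1 - m : ℕ) : ℝ) ^ m) := by
    apply pow_le_pow_left₀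
    · have : (m : ℝ) ≤ h := by exact_mod_cast hm
      linarith
    · have : (((h + 1 - m : ℕ) : ℝ)) = h + 1 - m := by
        rw [Nat.cast_sub (by omega)]
        push_cast
        ring
      rw [this]
      linarith
  have h3 := fact_le m
  have h4 : (0 : ℝ) < m.factorial := by exact_mod_cast Nat.factorial_pos m
  have h5 : ((h : ℝ) - m) ^ m / (((m : ℝ) + 1) ^ (m + 1) * Real.exp (-(m : ℝ))) ≤ (h.choose m : ℝ) := by
    refine le_trans ?_ h1
    apply div_le_div₀ (by positivity) h2 h4 h3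
  have h6 : ((h : ℝ) - m) ^ m / (((m : ℝ) + 1) ^ (m + 1) * Real.exp (-(m : ℝ))) * p ^ m =
      1 / ((m : ℝ) + 1) * ((((h : ℝ) - m) * p * Real.exp 1) / ((m : ℝ) + 1)) ^ m := by
    rw [div_pow, mul_pow, mul_pow, Real.exp_neg, ← Real.exp_nat_mul, mul_one]
    field_simp
    ring
  rw [← h6]
  exact mul_le_mul_of_nonneg_right h5 (by positivity)

end Pool.Agent.Q120.AD
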