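import Pool.Agent.Q120.AD.Main

/-!
# Cramér's model: windows with few elements, large numbers
-/

set_option autoImplicit false

namespace Pool.Agent.Q120.AD

open Finset MeasureTheory Filter Pool.Agent.Q120.ET Pool.Agent.Q120.MF
open scoped Topology

variable {Ω : Type*} [MeasurableSpace Ω] {μ : Measure Ω} [IsProbabilityMeasure μ] {A : Ω → Set ℕ}

theorem real_biUnion_le {ι : Type*} (I : Finset ι) (E : ι → Set Ω) {b : ℝ} (h : ∀ i ∈ I, μ.real (E i) ≤ b) :
    μ.real (⋃ i ∈ I, E i) ≤ I.card * b := by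
  refine (measureReal_biUnion_finset_le I E).trans ?_
  rw [← nsmul_eq_mul]
  exact sum_le_card_nsmul I _ b h

theorem sq_rpow_le {x : ℕ} (hx : 1 ≤ x) : ((x : ℝ) + 1) * (x + 1) * (x : ℝ) ^ (-(4 : ℝ)) ≤ 4 * (x : ℝ) ^ (-(2 : ℝ)) := by
  have hx1 : (1 : ℝ) ≤ x := by exact_mod_cast hx
  have h1 : ((x : ℝ) + 1) * (x + 1) ≤ 4 * (x : ℝ) ^ (2 : ℝ) := by
    rw [Real.rpow_two]
    nlinarith
  calc ((x : ℝ) + 1) * (x + 1) * (x : ℝ) ^ (-(4 : ℝ)) ≤ 4 * (x : ℝ) ^ (2 : ℝ) * (x : ℝ) ^ (-(4 : ℝ)) :=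
        mul_le_mul_of_nonneg_right h1 (by positivity)
    _ = 4 * (x : ℝ) ^ (-(2 : ℝ)) := by
        rw [mul_assoc, ← Real.rpow_add (by linarith)]
        norm_num

/-- All windows of length `(1 + ε) m log x` have more than `m` elements, if `m ≥ K log x`. -/
theorem large_many (hA : IsCramer μ A) {ε : ℝ} (hε : 0 < ε) : ∃ K : ℝ,
    ∀ᵐ ω ∂μ, ∀ᶠ x : ℕ in atTop, ∀ m : ℕ, K * Real.log x ≤ m → m ≤ x → ∀ y, x ≤ y →
      ∀ h : ℕ, (1 + ε) * (m * Real.log x) ≤ h → y + h ≤ 2 * x →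
        ¬ (tr A (Finset.Ioc y (y + h)) ω).card ≤ m := by
  classical
  obtain ⟨κ, hκ⟩ : ∃ κ : ℝ, κ = ε / 2 - Real.log (1 + ε / 2) := ⟨_, rfl⟩
  have hκ0 : 0 < κ := by
    have := Real.log_lt_sub_one_of_pos (show 0 < 1 + ε / 2 by linarith) (by linarith)
    rw [hκ]; linarith
  refine ⟨4 / κ, ?_⟩
  obtain ⟨hgt, hhgt⟩ : ∃ hgt : ℕ → ℕ → ℕ, hgt = fun (x m : ℕ) => ⌈(1 + ε) * ((m : ℝ) * Real.log (x : ℝ))⌉₊ := ⟨_, rfl⟩
  -- the index set
  obtain ⟨I, hI⟩ : ∃ I : ℕ → Finset (ℕ × ℕ), I = fun (x : ℕ) => ((range (x + 1)) ×ˢ (Finset.Icc x (2 * x))).filter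
    (fun p => 4 / κ * Real.log x ≤ (p.1 : ℝ) ∧ p.2 + hgt x p.1 ≤ 2 * x) := ⟨_, rfl⟩
  have hg : Summable (fun x : ℕ => 4 * (x : ℝ) ^ (-(2 : ℝ))) := (Real.summable_nat_rpow.2 (by norm_num)).mul_left 4
  have hT := (tendsto_log_mul (show (0 : ℝ) < 2 by norm_num)).eventually_lt_const
    (show (1 : ℝ) < (1 + ε) / (1 + ε / 2) by rw [lt_div_iff₀ (by linarith)]; linarith)
  have hae := (ae_eventually_notMem (tsum_ne_top_of_real (μ := μ) hg
    (f := fun x => ⋃ p ∈ I x, {ω | (tr A (Finset.Ioc p.2 (p.2 + hgt x p.1)) ω).card ≤ p.1}) ?_))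
  · filter_upwards [hae] with ω hω
    filter_upwards [hω] with x hx m hm hmx y hy h hh hyh hcard
    apply hx
    have h1 : hgt x m ≤ h := by
      rw [hhgt]
      exact Nat.ceil_le.2 hh
    rw [Set.mem_iUnion₂]
    refine ⟨(m, y), ?_, ?_⟩
    · rw [hI]
      simp only
      rw [mem_filter, mem_product, mem_range, Finset.mem_Icc]
      exact ⟨⟨by simp only; omega, by simp only; omega, by simp only; omega⟩, hm, by simp only; omega⟩
    · show (tr A (Finset.Ioc y (y + hgt x m)) ω).card ≤ m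
      refine (card_le_card ?_).trans hcard
      intro n hn
      rw [mem_tr, Finset.mem_Ioc] at hn ⊢
      exact ⟨⟨hn.1.1, by omega⟩, hn.2⟩
  · filter_upwards [hT, eventually_ge_atTop 3] with x hx hx3
    have hlog := one_lt_log hx3
    have hx0 : (0 : ℝ) < x := by
      have : 0 < x := by omega
      exact_mod_cast this
    have hlog2 : 1 < Real.log (2 * (x : ℝ)) := by
      have := Real.log_le_log hx0 (show (x : ℝ) ≤ 2 * x by linarith)
      linarith
    have hkey : (1 + ε / 2) * Real.log (2 * x) ≤ (1 + ε) * Real.log x := by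
      rw [div_lt_div_iff₀ (by linarith) (by linarith)] at hx
      linarith
    have hcardI : ((I x).card : ℝ) ≤ (x + 1) * (x + 1) := by
      have h1 : (I x).card ≤ (x + 1) * (x + 1) := by
        rw [hI]
        refine (card_filter_le _ _).trans ?_
        rw [card_product, card_range, Nat.card_Icc]
        apply Nat.mul_le_mul_left
        omega
      exact_mod_cast h1
    refine (real_biUnion_le (I x) _ (b := (x : ℝ) ^ (-(4 : ℝ))) ?_).trans ?_
    · rintro ⟨m, y⟩ hp
      rw [hI] at hp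
      simp only at hp
      rw [mem_filter, mem_product, mem_range, Finset.mem_Icc] at hp
      obtain ⟨⟨hp1, hp2, hp3⟩, hp4, hp5⟩ := hp
      simp only at hp1 hp2 hp3 hp4 hp5 ⊢
      have hs0 : 0 < 1 / (1 + ε / 2) := by positivity
      have hs1 : 1 / (1 + ε / 2) ≤ 1 := by rw [div_le_one (by linarith)]; linarith
      refine (real_few hA (by omega) hs0 hs1).trans ?_
      have h1 := sum_window (y := y) (h := hgt x m) (by omega) (z := 2 * x) (by exact_mod_cast hp5)
      have h2 : (1 + ε / 2) * m ≤ (hgt x m : ℝ) / Real.log (2 * x) := by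
        rw [le_div_iff₀ (by linarith)]
        have h3 : (1 + ε) * (m * Real.log x) ≤ (hgt x m : ℝ) := by
          rw [hhgt]
          exact Nat.le_ceil _
        have h4 : (0 : ℝ) ≤ m := Nat.cast_nonneg _
        nlinarith [mul_le_mul_of_nonneg_right hkey h4]
      rw [one_div_one_div]
      have h5 : (1 + ε / 2) ^ m = Real.exp (m * Real.log (1 + ε / 2)) := by
        rw [Real.exp_nat_mul, Real.exp_log (by linarith)]
      rw [h5, ← Real.exp_add, Real.rpow_def_of_pos hx0]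
      apply Real.exp_le_exp.2
      have h6 : (1 - 1 / (1 + ε / 2)) * ((1 + ε / 2) * m) = ε / 2 * m := by
        field_simp
        ring
      have h7 : (1 - 1 / (1 + ε / 2)) * ((1 + ε / 2) * m) ≤
          (1 - 1 / (1 + ε / 2)) * ∑ n ∈ Finset.Ioc y (y + hgt x m), 1 / Real.log (n : ℝ) :=
        mul_le_mul_of_nonneg_left (h2.trans h1) (by linarith)
      rw [h6] at h7
      have h8 : 4 * Real.log x ≤ κ * m := by
        rw [div_mul_eq_mul_div, div_le_iff₀ hκ0] at hp4
        linarith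
      have h9 : κ * m = ε / 2 * m - m * Real.log (1 + ε / 2) := by rw [hκ]; ring
      linarith
    · refine le_trans ?_ (sq_rpow_le (x := x) (by omega))
      exact mul_le_mul_of_nonneg_right hcardI (by positivity)

/-- The window `(x, x + (1 - ε) m log x]` has at most `m` elements, if `m ≥ K log x`. -/
theorem large_few (hA : IsCramer μ A) {ε : ℝ} (hε : 0 < ε) (hε1 : ε < 1) : ∃ K : ℝ,
    ∀ᵐ ω ∂μ, ∀ᶠ x : ℕ in atTop, ∀ m : ℕ, K * Real.log x ≤ m → m ≤ x →
      (tr A (Finset.Ioc x (x + ⌊(1 - ε) * (m * Real.log x)⌋₊)) ω).card ≤ m := by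
  classical
  obtain ⟨κ, hκ⟩ : ∃ κ : ℝ, κ = -ε - Real.log (1 - ε) := ⟨_, rfl⟩
  have hκ0 : 0 < κ := by
    have := Real.log_lt_sub_one_of_pos (show 0 < 1 - ε by linarith) (by linarith)
    rw [hκ]; linarith
  refine ⟨4 / κ, ?_⟩
  obtain ⟨hgt, hhgt⟩ : ∃ hgt : ℕ → ℕ → ℕ, hgt = fun (x m : ℕ) => ⌊(1 - ε) * ((m : ℝ) * Real.log (x : ℝ))⌋₊ := ⟨_, rfl⟩
  obtain ⟨I, hI⟩ : ∃ I : ℕ → Finset ℕ, I = fun (x : ℕ) => (range (x + 1)).filter
    (fun (m : ℕ) => 4 / κ * Real.log (x : ℝ) ≤ (m : ℝ)) := ⟨_, rfl⟩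
  have hg : Summable (fun x : ℕ => 4 * (x : ℝ) ^ (-(2 : ℝ))) := (Real.summable_nat_rpow.2 (by norm_num)).mul_left 4
  have hae := (ae_eventually_notMem (tsum_ne_top_of_real (μ := μ) hg
    (f := fun x => ⋃ m ∈ I x, {ω | ¬ (tr A (Finset.Ioc x (x + hgt x m)) ω).card ≤ m}) ?_))
  · filter_upwards [hae] with ω hω
    filter_upwards [hω] with x hx m hm hmx
    by_contra hcard
    apply hx
    rw [Set.mem_iUnion₂]
    refine ⟨m, ?_, ?_⟩
    · rw [hI]
      simp only
      rw [mem_filter, mem_range]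
      exact ⟨by omega, hm⟩
    · show ¬ (tr A (Finset.Ioc x (x + hgt x m)) ω).card ≤ m
      rw [hhgt]
      exact hcard
  · filter_upwards [eventually_ge_atTop 3] with x hx3
    have hlog := one_lt_log hx3
    have hx0 : (0 : ℝ) < x := by
      have : 0 < x := by omega
      exact_mod_cast this
    have hcardI : ((I x).card : ℝ) ≤ (x + 1) * (x + 1) := by
      have h1 : (I x).card ≤ (x + 1) * (x + 1) := by
        rw [hI]
        refine (card_filter_le _ _).trans ?_
        rw [card_range]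
        nlinarith
      exact_mod_cast h1
    refine (real_biUnion_le (I x) _ (b := (x : ℝ) ^ (-(4 : ℝ))) ?_).trans ?_
    · intro m hp
      rw [hI] at hp
      simp only at hp
      rw [mem_filter, mem_range] at hp
      obtain ⟨hp1, hp4⟩ := hp
      have h1ε : 0 < 1 - ε := by linarith
      have hs1 : 1 ≤ 1 / (1 - ε) := by rw [le_div_iff₀ h1ε]; linarith
      refine (real_many hA (by omega) hs1).trans ?_
      have h1 := sum_window_le (y := x) (h := hgt x m) (by omega)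
      have h2 : (hgt x m : ℝ) / Real.log x ≤ (1 - ε) * m := by
        rw [div_le_iff₀ (by linarith)]
        have h3 : (hgt x m : ℝ) ≤ (1 - ε) * (m * Real.log x) := by
          rw [hhgt]
          exact Nat.floor_le (by positivity)
        linarith
      rw [one_div_one_div]
      have h5 : (1 - ε) ^ m = Real.exp (m * Real.log (1 - ε)) := by
        rw [Real.exp_nat_mul, Real.exp_log h1ε]
      rw [h5, ← Real.exp_add, Real.rpow_def_of_pos hx0]
      apply Real.exp_le_exp.2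
      have h6 : (1 / (1 - ε) - 1) * ((1 - ε) * m) = ε * m := by
        field_simp
        ring
      have h7 : (1 / (1 - ε) - 1) * ∑ n ∈ Finset.Ioc x (x + hgt x m), 1 / Real.log (n : ℝ) ≤
          (1 / (1 - ε) - 1) * ((1 - ε) * m) :=
        mul_le_mul_of_nonneg_left (h1.trans h2) (by linarith)
      rw [h6] at h7
      have h8 : 4 * Real.log x ≤ κ * m := by
        rw [div_mul_eq_mul_div, div_le_iff₀ hκ0] at hp4
        linarith
      have h9 : κ * m = -ε * m - m * Real.log (1 - ε) := by rw [hκ]; ring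
      linarith
    · refine le_trans ?_ (sq_rpow_le (x := x) (by omega))
      exact mul_le_mul_of_nonneg_right hcardI (by positivity)

end Pool.Agent.Q120.AD
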